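import Pool.Agent.Helper55.JS.Walks

/-!
# JS-11: a subgraph in which every vertex is light
-/

set_option autoImplicit false

namespace Pool.Agent.Helper55.JS

open Finset

variable {V : Type} [Fintype V] [DecidableEq V] {G : SimpleGraph V}

namespace P11

omit [Fintype V] in
/-- removing a vertex from a set -/
theorem sum_erase_adj (S : Finset V) {v : V} (hv : v ∈ S) :
    ∑ x ∈ S, ∑ y ∈ S, adj G x y =
      ∑ x ∈ S.erase v, ∑ y ∈ S.erase v, adj G x y + 2 * ∑ y ∈ S, adj G v y := by
  classical
  have h0 : adj G v v = 0 := adj_of_not (G.loopless.irrefl v)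
  have h1 : ∀ x, ∑ y ∈ S, adj G x y = adj G x v + ∑ y ∈ S.erase v, adj G x y :=
    fun x => (add_sum_erase S (fun y => adj G x y) hv).symm
  rw [← add_sum_erase S (fun x => ∑ y ∈ S, adj G x y) hv]
  have h2 : ∑ x ∈ S.erase v, ∑ y ∈ S, adj G x y =
      ∑ x ∈ S.erase v, adj G v x + ∑ x ∈ S.erase v, ∑ y ∈ S.erase v, adj G x y := by
    rw [← sum_add_distrib]
    refine sum_congr rfl fun x _ => ?_
    rw [h1 x, adj_symm x v]
  have h3 : ∑ x ∈ S.erase v, adj G v x = ∑ y ∈ S, adj G v y := by
    rw [h1 v, h0, zero_add]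
  rw [h2, h3]
  ring

/-- a set of vertices with large inner degrees -/
theorem exists_set {d : ℝ} (hd : 0 < d) (A : Finset V)
    (hA : d / 2 * A.card ≤ ∑ x ∈ A, ∑ y ∈ A, adj G x y) (hne : A.Nonempty) :
    ∃ S ⊆ A, S.Nonempty ∧ ∀ v ∈ S, d / 4 ≤ ∑ y ∈ S, adj G v y := by
  classical
  induction hn : A.card using Nat.strong_induction_on generalizing A with
  | _ n ih =>
    by_cases h : ∀ v ∈ A, d / 4 ≤ ∑ y ∈ A, adj G v y
    · exact ⟨A, Subset.refl _, hne, h⟩
    · push Not at h
      obtain ⟨v, hv, hlt⟩ := h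
      have h1 := sum_erase_adj (G := G) A hv
      have hcard : ((A.erase v).card : ℝ) = A.card - 1 := by
        rw [card_erase_of_mem hv, Nat.cast_sub (card_pos.2 hne)]
        norm_num
      have h2 : d / 2 * (A.erase v).card ≤ ∑ x ∈ A.erase v, ∑ y ∈ A.erase v, adj G x y := by
        rw [hcard]
        linarith
      have hne' : (A.erase v).Nonempty := by
        rw [nonempty_iff_ne_empty]
        intro he
        rw [he, sum_empty] at h1
        have h4 : A.card = 1 := by
          have : (A.erase v).card = 0 := by rw [he]; rfl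
          rw [card_erase_of_mem hv] at this
          have := card_pos.2 hne
          omega
        have h5 : ∑ y ∈ A, adj G v y = 0 := by
          obtain ⟨u, hu⟩ := card_eq_one.1 h4
          rw [hu] at hv ⊢
          rw [mem_singleton.1 hv, sum_singleton]
          exact adj_of_not (G.loopless.irrefl u)
        rw [h5] at h1
        rw [h1, h4] at hA
        norm_num at hA
        linarith
      obtain ⟨S, hS1, hS2, hS3⟩ := ih (A.erase v).card (by
        rw [card_erase_of_mem hv, ← hn]
        have := card_pos.2 hne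
        omega) (A.erase v) h2 hne' rfl
      exact ⟨S, hS1.trans (erase_subset _ _), hS2, hS3⟩

end P11

/-- JS-11 -/
theorem exists_light_subgraph [Nonempty V] {k : ℕ} {d T K : ℝ} (hd : 0 < d) (hK : 1 ≤ K)
    (hT : 0 < T) (hdeg : ∀ v, d ≤ dg G v) (hdeg' : ∀ v, dg G v ≤ K * d)
    (hN : ∑ v, W G (2 * k) v v ≤ T * Fintype.card V * d ^ k) :
    ∃ (V' : Type) (_ : Fintype V') (_ : DecidableEq V') (G' : SimpleGraph V'), Nonempty V' ∧
      G'.IsContained G ∧ (∀ v, d / 4 ≤ dg G' v) ∧ (∀ v, dg G' v ≤ K * d) ∧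
      ∀ v, W G' (2 * k) v v ≤ 4 * K * T * d ^ k := by
  classical
  set B : Finset V := univ.filter fun v => 4 * K * T * d ^ k < W G (2 * k) v v with hB
  have hKpos : 0 < K := by linarith
  have hc : 0 < 4 * K * T * d ^ k := by positivity
  have hBcard : (B.card : ℝ) * (4 * K) ≤ Fintype.card V := by
    have h1 : (B.card : ℝ) * (4 * K * T * d ^ k) ≤ ∑ v ∈ B, W G (2 * k) v v := by
      rw [← nsmul_eq_mul, ← sum_const]
      exact sum_le_sum fun v hv => (mem_filter.1 hv).2.le
    have h2 : ∑ v ∈ B, W G (2 * k) v v ≤ ∑ v, W G (2 * k) v v :=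
      sum_le_sum_of_subset_of_nonneg (subset_univ _) fun v _ _ => W_nonneg _ _ _
    have h3 : (B.card : ℝ) * (4 * K) * (T * d ^ k) ≤ Fintype.card V * (T * d ^ k) := by
      calc (B.card : ℝ) * (4 * K) * (T * d ^ k) = (B.card : ℝ) * (4 * K * T * d ^ k) := by ring
        _ ≤ T * Fintype.card V * d ^ k := (h1.trans h2).trans hN
        _ = _ := by ring
    exact le_of_mul_le_mul_right h3 (by positivity)
  have hn : (0 : ℝ) < Fintype.card V := by
    exact_mod_cast Fintype.card_pos
  -- the total degree outside `B`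
  have hE : d / 2 * Fintype.card V ≤ ∑ x ∈ Bᶜ, ∑ y ∈ Bᶜ, adj G x y := by
    have h1 : ∑ x, ∑ y, adj G x y = ∑ x ∈ Bᶜ, ∑ y ∈ Bᶜ, adj G x y +
        ∑ x ∈ Bᶜ, ∑ y ∈ B, adj G x y + ∑ x ∈ B, dg G x := by
      rw [← sum_compl_add_sum B (fun x => ∑ y, adj G x y), ← sum_add_distrib]
      congr 1
      exact sum_congr rfl fun x _ => (sum_compl_add_sum B (fun y => adj G x y)).symm
    have h2 : ∑ x ∈ Bᶜ, ∑ y ∈ B, adj G x y ≤ ∑ x ∈ B, dg G x := by
      rw [sum_comm]
      refine sum_le_sum fun x _ => ?_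
      unfold dg
      calc ∑ y ∈ Bᶜ, adj G y x = ∑ y ∈ Bᶜ, adj G x y := sum_congr rfl fun y _ => adj_symm y x
        _ ≤ ∑ y, adj G x y :=
          sum_le_sum_of_subset_of_nonneg (subset_univ _) fun v _ _ => adj_nonneg _ _
    have h3 : ∑ x ∈ B, dg G x ≤ B.card * (K * d) := by
      rw [← nsmul_eq_mul, ← sum_const]
      exact sum_le_sum fun v _ => hdeg' v
    have h4 : Fintype.card V * d ≤ ∑ x, ∑ y, adj G x y := by
      rw [← nsmul_eq_mul, ← card_univ, ← sum_const]
      exact sum_le_sum fun v _ => hdeg v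
    have h5 : (B.card : ℝ) * (K * d) ≤ Fintype.card V * d / 4 := by
      have := mul_le_mul_of_nonneg_right hBcard hd.le
      linarith
    linarith
  have hcc : ((Bᶜ : Finset V).card : ℝ) ≤ Fintype.card V := by
    exact_mod_cast card_le_univ _
  have hne : (Bᶜ : Finset V).Nonempty := by
    rw [nonempty_iff_ne_empty]
    intro he
    rw [he, sum_empty] at hE
    have : 0 < d / 2 * Fintype.card V := by positivity
    linarith
  obtain ⟨S, hSB, hSne, hS⟩ := P11.exists_set (G := G) hd Bᶜ
    (le_trans (mul_le_mul_of_nonneg_left hcc (by positivity)) hE) hne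
  have hadj : ∀ x y : {x // x ∈ S}, adj (G.induce (S : Set V)) x y = adj G (x : V) y := by
    intro x y
    by_cases h : G.Adj x y
    · rw [adj_of_adj h, adj_of_adj]
      exact h
    · rw [adj_of_not h, adj_of_not]
      exact h
  have hdg : ∀ v : {x // x ∈ S}, dg (G.induce (S : Set V)) v = ∑ y ∈ S, adj G (v : V) y := by
    intro v
    unfold dg
    rw [← sum_coe_sort S]
    exact sum_congr rfl fun y _ => hadj v y
  have hW : ∀ (m : ℕ) (x y : {x // x ∈ S}),
      W (G.induce (S : Set V)) m x y ≤ W G m (x : V) y := by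
    intro m
    induction m with
    | zero =>
      intro x y
      rw [W_zero, W_zero]
      by_cases h : x = y
      · rw [if_pos h, if_pos (congrArg _ h)]
      · rw [if_neg h, if_neg (fun h' => h (Subtype.ext h'))]
    | succ m ih =>
      intro x y
      rw [W_succ, W_succ]
      calc ∑ z : {x // x ∈ S}, W (G.induce (S : Set V)) m x z * adj (G.induce (S : Set V)) z y
          ≤ ∑ z : {x // x ∈ S}, W G m (x : V) z * adj G (z : V) y := by
            refine sum_le_sum fun z _ => ?_
            rw [hadj]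
            exact mul_le_mul_of_nonneg_right (ih x z) (adj_nonneg _ _)
        _ = ∑ z ∈ S, W G m (x : V) z * adj G z y :=
            sum_coe_sort S (fun z => W G m (x : V) z * adj G z y)
        _ ≤ _ := sum_le_sum_of_subset_of_nonneg (subset_univ _)
            fun z _ _ => mul_nonneg (W_nonneg _ _ _) (adj_nonneg _ _)
  refine ⟨{x // x ∈ S}, inferInstance, inferInstance, G.induce (S : Set V), hSne.to_subtype,
    ⟨(SimpleGraph.Embedding.induce (S : Set V)).toCopy⟩, ?_, ?_, ?_⟩
  · intro v
    rw [hdg]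
    exact hS v v.2
  · intro v
    rw [hdg]
    refine le_trans ?_ (hdeg' (v : V))
    exact sum_le_sum_of_subset_of_nonneg (subset_univ _) fun z _ _ => adj_nonneg _ _
  · intro v
    have hv : (v : V) ∉ B := mem_compl.1 (hSB v.2)
    rw [hB, mem_filter, not_and] at hv
    exact (hW _ _ _).trans (not_lt.1 (hv (mem_univ _)))

end Pool.Agent.Helper55.JS
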